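import Pool.Agent.Helper32.LD.Frame
import Pool.Agent.Helper78.LD.Stat

/-!
# L-SHAPED CORRIDOR, part [D]: duality, `dual : StDual` (helper32)
-/

namespace LD
open IP Finset Real

/-! ### gluing -/

theorem du_gl_NC {m : ℕ} {σ τ : St} (hσ : σ ∈ NC) (hτ : τ ∈ NC) : gl m σ τ ∈ NC := by
  intro a b c d hab hbc hcd hac hbd
  rcases le_or_gt a m with ha | ha
  · have hc : c ≤ m := by
      by_contra h
      exact gl_mixed σ τ ha (by omega) hac
    have hb : b ≤ m := by omega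
    have hd : d ≤ m := by
      by_contra h
      exact gl_mixed σ τ hb (by omega) hbd
    rw [gl_left σ τ ha hc] at hac
    rw [gl_left σ τ hb hd] at hbd
    rw [gl_left σ τ ha hb]
    obtain ⟨b, rfl⟩ : ∃ b', b = b' + 1 := ⟨b - 1, by omega⟩
    obtain ⟨c, rfl⟩ : ∃ c', c = c' + 1 := ⟨c - 1, by omega⟩
    obtain ⟨d, rfl⟩ : ∃ d', d = d' + 1 := ⟨d - 1, by omega⟩
    rw [ix_succ] at hac
    rw [ix_succ, ix_succ] at hbd
    rw [ix_succ]
    rcases Nat.eq_zero_or_pos a with h0 | h0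
    · subst h0
      rw [ix_zero] at hac ⊢
      have h1 := hσ b c d m (by omega) (by omega) (by omega) hbd (σ.symm hac)
      exact σ.trans hac (σ.symm h1)
    · obtain ⟨a, rfl⟩ : ∃ a', a = a' + 1 := ⟨a - 1, by omega⟩
      rw [ix_succ] at hac ⊢
      exact hσ a b c d (by omega) (by omega) (by omega) hac hbd
  · rw [gl_right σ τ ha (by omega)] at hac
    rw [gl_right σ τ (by omega) (by omega)] at hbd
    rw [gl_right σ τ ha (by omega)]
    exact hτ _ _ _ _ (by omega) (by omega) (by omega) hac hbd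

theorem du_gl_W {m k : ℕ} (σ : St) {τ : St} (hτ : τ ∈ W k) : gl m σ τ ∈ W (m + 1 + k) := by
  intro i j hi hj
  show gl m σ τ i j
  rw [gl_right σ τ (by omega) (by omega)]
  exact hτ _ _ (by omega) (by omega)

theorem du_J_Sup {m : ℕ} {A B C : Set St} (h : ∀ σ ∈ A, ∀ τ ∈ B, gl m σ τ ∈ C) {v w : M}
    (hv : v ∈ Sup A) (hw : w ∈ Sup B) : J m v w ∈ Sup C := by
  classical
  have h1 : J m v w = ∑ σ ∈ v.support, v σ • Finsupp.lmapDomain ℝ ℝ (gl m σ) w := by
    conv_lhs => rw [← Finsupp.sum_single v]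
    unfold Finsupp.sum
    rw [map_sum, LinearMap.sum_apply]
    exact Finset.sum_congr rfl fun σ _ => J_single m σ (v σ) w
  rw [h1]
  refine Submodule.sum_mem _ fun σ hσ => Submodule.smul_mem _ _ ?_
  have h2 : σ ∈ A := (Finsupp.mem_supported ℝ v).1 hv (Finset.mem_coe.2 hσ)
  exact lmap_Sup (fun τ hτ => h σ h2 τ hτ) hw

theorem du_lmap_ext {A : Set St} {N : Type*} [AddCommMonoid N] [Module ℝ N] {f g : M →ₗ[ℝ] N}
    (h : ∀ σ ∈ A, f (Finsupp.single σ 1) = g (Finsupp.single σ 1)) {v : M} (hv : v ∈ Sup A) :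
    f v = g v := by
  classical
  rw [← Finsupp.sum_single v]
  unfold Finsupp.sum
  rw [map_sum, map_sum]
  apply Finset.sum_congr rfl
  intro σ hσ
  have h1 : σ ∈ A := (Finsupp.mem_supported ℝ v).1 hv (Finset.mem_coe.2 hσ)
  have h2 : (Finsupp.single σ (v σ) : M) = v σ • Finsupp.single σ 1 := by
    rw [Finsupp.smul_single, smul_eq_mul, mul_one]
  rw [h2, map_smul, map_smul, h σ h1]

/-- the initial vectors -/
theorem Ph_glue (m k : ℕ) {v : M} (hv : v ∈ Sup (W m)) (w : M) :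
    Ph (m + k + 1) (De (2 * m + 3) (J (m + 1) v w)) = J k (Ka k w) (Ka m v) := by
  refine du_lmap_ext (A := W m) (f := Ph (m + k + 1) ∘ₗ De (2 * m + 3) ∘ₗ (J (m + 1)).flip w)
    (g := (J k (Ka k w)) ∘ₗ Ka m) (fun σ hσ => ?_) hv
  simp only [LinearMap.comp_apply, LinearMap.flip_apply]
  have e : Ph (m + k + 1) ∘ₗ De (2 * m + 3) ∘ₗ J (m + 1) (Finsupp.single σ 1) =
      (J k).flip (Ka m (Finsupp.single σ 1)) ∘ₗ Ka k := by
    apply Finsupp.lhom_ext'
    intro τ
    apply LinearMap.ext_ring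
    simp only [LinearMap.comp_apply, Finsupp.lsingle_apply, LinearMap.flip_apply]
    rw [J_single_single, De_single, Ph_single, Ka_single, Ka_single, J_single_single, Phi_glue m k hσ τ]
  exact LinearMap.congr_fun e w

/-! ### `up` -/

theorem du_up_row (off : ℕ) (c : ℕ → ℝ) (K : ℕ) (off' : ℕ) (b : ℕ → ℝ) (N : ℕ) (h : off' + N + 1 ≤ off) (v : M) :
    row off' b N (up off c K v) = up off c K (row off' b N v) := by
  induction K with
  | zero => rfl
  | succ K ih => rw [up_succ, up_succ, ← ih, Rt_row_right off' b N (by omega)]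

theorem du_up_Rt (off : ℕ) (c : ℕ → ℝ) (K : ℕ) {j : ℕ} (h : j + 2 ≤ off) (u : ℝ) (v : M) :
    Rt j u (up off c K v) = up off c K (Rt j u v) := by
  induction K with
  | zero => rfl
  | succ K ih => rw [up_succ, up_succ, ← ih, Rt_comm (by omega : j + 2 ≤ off + K)]

theorem du_De_up (off : ℕ) (c : ℕ → ℝ) (K : ℕ) {i : ℕ} (h : i ≤ off) (v : M) :
    De i (up (off + 2) c K v) = up off c K (De i v) := by
  induction K with
  | zero => rfl
  | succ K ih => rw [up_succ, up_succ, ← ih, show off + 2 + K = off + K + 2 by omega, De_Rt_gt (by omega)]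

theorem du_up_succ_left (off : ℕ) (c : ℕ → ℝ) (K : ℕ) (v : M) :
    up off c (K + 1) v = up (off + 1) (fun j => c (j + 1)) K (Rt off (π / 6 - c 0) v) := by
  induction K with
  | zero => rfl
  | succ K ih => rw [up_succ, ih, up_succ (off + 1), show off + (K + 1) = off + 1 + K by omega]

/-! ### the mirrored operators -/

noncomputable section

/-- mirrored double row: two strands move to the right through `2m+1` strands and are closed there -/
def DU (m l : ℕ) (c : ℕ → ℝ) (p q : ℝ) : M →ₗ[ℝ] M :=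
  De (2 * (m + l) + 1) ∘ₗ up (2 * l) (fun j => c j + q) (2 * m + 1) ∘ₗ up (2 * l + 1) (fun j => c j + p) (2 * m + 1)

/-- `k` mirrored double rows -/
def dus (m : ℕ) (c e : ℕ → ℝ) : ℕ → M →ₗ[ℝ] M
  | 0 => LinearMap.id
  | k + 1 => dus m c e k ∘ₗ DU m (k + 1) c (-e (2 * k + 1)) (-e (2 * k))

/-- mirrored caps -/
def capsU : ℕ → M →ₗ[ℝ] M
  | 0 => LinearMap.id
  | m + 1 => capsU m ∘ₗ De (2 * m + 2)

end

theorem DU_apply (m l : ℕ) (c : ℕ → ℝ) (p q : ℝ) (v : M) : DU m l c p q v =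
    De (2 * (m + l) + 1) (up (2 * l) (fun j => c j + q) (2 * m + 1) (up (2 * l + 1) (fun j => c j + p) (2 * m + 1) v)) :=
  rfl

theorem dus_zero (m : ℕ) (c e : ℕ → ℝ) (v : M) : dus m c e 0 v = v := rfl

theorem dus_succ (m : ℕ) (c e : ℕ → ℝ) (k : ℕ) (v : M) :
    dus m c e (k + 1) v = dus m c e k (DU m (k + 1) c (-e (2 * k + 1)) (-e (2 * k)) v) := rfl

theorem capsU_succ (m : ℕ) (v : M) : capsU (m + 1) v = capsU m (De (2 * m + 2) v) := rfl

theorem capsU_succ' (m : ℕ) (v : M) : capsU (m + 1) v = capsU m (De 2 v) := by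
  induction m generalizing v with
  | zero => rfl
  | succ m ih =>
    rw [capsU_succ, ih, show 2 * (m + 1) + 2 = 2 * m + 2 + 2 by ring, De_De (by omega : 2 ≤ 2 * m + 2), capsU_succ m]

/-- the first double row -/
theorem rows_succ' (n : ℕ) (b β : ℕ → ℝ) (k : ℕ) (v : M) :
    rows n b β (k + 1) v = rows n b (fun r => β (r + 2)) k (DR n b (β 0) (β 1) v) := by
  induction k with
  | zero => rfl
  | succ k ih =>
    rw [rows_succ, ih, rows_succ]
    rfl

theorem Ph_DR {m l : ℕ} (hl : 1 ≤ l) (b : ℕ → ℝ) (p q : ℝ) {v : M} (hv : v ∈ Sup NC) :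
    Ph (m + l) (DR (2 * m + 1) b p q v) = DU m l (rv m b) p q (Ph (m + l + 1) v) := by
  rw [DR_apply, Ph_De (by omega) (by omega) (row_NC _ _ _ (row_NC _ _ _ hv)),
    Ph_row 3 _ (2 * m + 1) (by omega) (by omega) (row_NC _ _ _ hv), Ph_row 2 _ (2 * m + 1) (by omega) (by omega) hv,
    DU_apply]
  have e1 : 2 * (m + l) + 3 - 2 = 2 * (m + l) + 1 := by omega
  have e2 : 2 * (m + l + 1) + 2 - 3 - (2 * m + 1) = 2 * l := by omega
  have e3 : 2 * (m + l + 1) + 2 - 2 - (2 * m + 1) = 2 * l + 1 := by omega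
  have e4 : ∀ q : ℝ, (fun j => -(b (2 * m + 1 - 1 - j) - q)) = fun j => rv m b j + q := by
    intro q
    funext j
    unfold rv
    rw [Nat.add_sub_cancel]
    ring
  rw [e1, e2, e3, e4, e4]

theorem du_DR_NC (n : ℕ) (b : ℕ → ℝ) (p q : ℝ) {v : M} (hv : v ∈ Sup NC) : DR n b p q v ∈ Sup NC :=
  De_NC _ (row_NC _ _ _ (row_NC _ _ _ hv))

theorem du_rows_NC (n : ℕ) (b β : ℕ → ℝ) (k : ℕ) {v : M} (hv : v ∈ Sup NC) : rows n b β k v ∈ Sup NC := by
  induction k with
  | zero => exact hv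
  | succ k ih =>
    rw [rows_succ]
    exact du_DR_NC _ _ _ _ ih

theorem Ph_rows (m : ℕ) (b : ℕ → ℝ) (k : ℕ) (β e : ℕ → ℝ) (h : ∀ j < 2 * k, e j = -β (2 * k - 1 - j)) {v : M}
    (hv : v ∈ Sup NC) :
    Ph (m + 1) (rows (2 * m + 1) b β k v) = dus m (rv m b) e k (Ph (m + k + 1) v) := by
  induction k generalizing β v with
  | zero => rfl
  | succ k ih =>
    have h1 : β 0 = -e (2 * k + 1) := by
      rw [h (2 * k + 1) (by omega), show 2 * (k + 1) - 1 - (2 * k + 1) = 0 by omega, neg_neg]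
    have h2 : β 1 = -e (2 * k) := by
      rw [h (2 * k) (by omega), show 2 * (k + 1) - 1 - 2 * k = 1 by omega, neg_neg]
    rw [rows_succ', ih (fun r => β (r + 2)) (fun j hj => by
        rw [h j (by omega)]
        congr 2
        omega) (du_DR_NC _ _ _ _ hv), dus_succ, h1, h2, show m + k + 1 = m + (k + 1) by ring, Ph_DR (by omega) _ _ _ hv]

theorem Ph_caps (m : ℕ) {v : M} (hv : v ∈ Sup NC) : Ph 1 (caps m v) = capsU m (Ph (m + 1) v) := by
  induction m generalizing v with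
  | zero => rfl
  | succ m ih =>
    rw [caps_succ, ih (De_NC _ hv), capsU_succ, Ph_De (by omega) (by omega) hv,
      show 2 * (m + 1) + 3 - 3 = 2 * m + 2 by omega]

/-! ### rows first or columns first -/

theorem du_core (m k : ℕ) (c e : ℕ → ℝ) (v : M) :
    DR (2 * k) e (c 0) (c 1) (DU (m + 1) (k + 1) c (-e (2 * k + 1)) (-e (2 * k)) v) =
      DU m (k + 1) (fun j => c (j + 2)) (-e (2 * k + 1)) (-e (2 * k)) (DR (2 * k + 2) e (c 0) (c 1) v) := by
  rw [DR_apply, DU_apply, DU_apply, DR_apply]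
  rw [show 2 * (m + 1 + (k + 1)) + 1 = (2 * (m + (k + 1)) + 1) + 2 by ring, show 2 * (m + 1) + 1 = 2 * m + 1 + 1 + 1 by ring,
    show 2 * (k + 1) = 2 * k + 2 by ring]
  rw [du_up_succ_left (2 * k + 2 + 1), du_up_succ_left (2 * k + 2 + 1 + 1), du_up_succ_left (2 * k + 2),
    du_up_succ_left (2 * k + 2 + 1)]
  -- the right side
  rw [row_succ 3 _ (2 * k + 1), row_succ 3 _ (2 * k), row_succ 2 _ (2 * k + 1), row_succ 2 _ (2 * k)]
  -- commutations on the left side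
  rw [du_up_Rt (2 * k + 2 + 1 + 1 + 1) _ (2 * m + 1) (by omega : 2 * k + 2 + 2 ≤ 2 * k + 2 + 1 + 1 + 1),
    du_up_Rt (2 * k + 2 + 1 + 1 + 1) _ (2 * m + 1) (by omega : 2 * k + 2 + 1 + 2 ≤ 2 * k + 2 + 1 + 1 + 1)]
  rw [← De_row_lt 2 _ (2 * k) (by omega), ← De_row_lt 3 _ (2 * k) (by omega), De_De (by omega),
    du_up_row (2 * k + 2 + 1 + 1) _ _ 2 _ (2 * k) (by omega), du_up_row (2 * k + 2 + 1 + 1) _ _ 3 _ (2 * k) (by omega),
    du_up_row (2 * k + 2 + 1 + 1 + 1) _ _ 2 _ (2 * k) (by omega),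
    du_up_row (2 * k + 2 + 1 + 1 + 1) _ _ 3 _ (2 * k) (by omega)]
  rw [show 2 * k + 2 + 1 + 1 + 1 = (2 * k + 2 + 1) + 2 by ring, show 2 * k + 2 + 1 + 1 = (2 * k + 2) + 2 by ring,
    du_De_up (2 * k + 2) _ _ (by omega), du_De_up (2 * k + 2 + 1) _ _ (by omega)]
  -- commutations on the right side
  rw [Rt_row_right 2 _ (2 * k) (by omega : 2 + 2 * k + 1 ≤ 3 + (2 * k + 1)),
    Rt_row_right 2 _ (2 * k) (by omega : 2 + 2 * k + 1 ≤ 3 + 2 * k)]
  rw [show 3 + (2 * k + 1) = (2 * k + 2) + 2 by ring, show 2 + (2 * k + 1) = 2 * k + 2 + 1 by ring,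
    show 3 + 2 * k = 2 * k + 3 by ring, show 2 + 2 * k = 2 * k + 2 by ring,
    Rt_comm (by omega : 2 * k + 2 + 2 ≤ 2 * k + 2 + 2) (π / 6 - (c 0 + -e (2 * k)))]
  have e1 : π / 6 - (c (0 + 1) + -e (2 * k)) = e (2 * k) - c 1 + π / 6 := by rw [zero_add]; ring
  have e2 : π / 6 - (c 0 + -e (2 * k)) = e (2 * k) - c 0 + π / 6 := by ring
  have e3 : π / 6 - (c (0 + 1) + -e (2 * k + 1)) = e (2 * k + 1) - c 1 + π / 6 := by rw [zero_add]; ring
  have e4 : π / 6 - (c 0 + -e (2 * k + 1)) = e (2 * k + 1) - c 0 + π / 6 := by ring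
  rw [e1, e2, e3, e4]

theorem De_dus (m k : ℕ) (c e : ℕ → ℝ) (v : M) :
    De 2 (dus (m + 1) c e k v) = dus m (fun j => c (j + 2)) e k (DR (2 * k) e (c 0) (c 1) v) := by
  induction k generalizing v with
  | zero => rfl
  | succ k ih => rw [dus_succ, ih, du_core, dus_succ, show 2 * (k + 1) = 2 * k + 2 by ring]

theorem du_base (k : ℕ) (c e : ℕ → ℝ) (v : M) :
    dus 0 c e k v = caps k (row 2 (fun j => e j - c 0) (2 * k) v) := by
  induction k generalizing v with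
  | zero => rfl
  | succ k ih =>
    rw [dus_succ, ih, caps_succ', DU_apply, show 2 * (k + 1) = 2 * k + 1 + 1 by ring, row_succ 2 _ (2 * k + 1),
      row_succ 2 _ (2 * k), De_row_lt 2 _ (2 * k) (by omega)]
    rw [show 2 * (0 + (k + 1)) + 1 = 2 * k + 3 by ring]
    congr 3
    rw [show 2 * 0 + 1 = 0 + 1 by ring, up_succ, up_succ, up_zero, up_zero]
    rw [show 2 * k + 1 + 1 + 1 + 0 = 2 + (2 * k + 1) by ring, show 2 * k + 1 + 1 + 0 = 2 + 2 * k by ring]
    congr 2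
    · ring
    congr 1
    ring

theorem du_main (m k : ℕ) (c e : ℕ → ℝ) (v : M) :
    capsU m (dus m c e k v) = caps k (row 2 (fun j => e j - c (2 * m)) (2 * k) (rows (2 * k) e c m v)) := by
  induction m generalizing c v with
  | zero => exact du_base k c e v
  | succ m ih => rw [capsU_succ', De_dus, ih, rows_succ', show 2 * (m + 1) = 2 * m + 2 by ring]

/-! ### complement -/

theorem cr_single (σ : St) (x : ℝ) [Decidable (σ 0 1)] : cr (Finsupp.single σ x) = if σ 0 1 then x else 0 := by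
  unfold cr
  rw [Finsupp.lsum_single]
  by_cases h : σ 0 1
  · rw [if_pos h, if_pos h]
    rfl
  · rw [if_neg h, if_neg h]
    rfl

theorem Phi_one {σ : St} (hσ : σ ∈ W 1) : Phi 1 σ 0 1 ↔ ¬ σ 0 1 := by
  rw [Phi_apply, ff_zero, ff_pos 1 one_ne_zero]
  constructor
  · intro h h1
    have h2 := h 0 1 h1
    omega
  · intro h x y hxy
    rcases Nat.eq_zero_or_pos x with hx | hx <;> rcases Nat.eq_zero_or_pos y with hy | hy
    · omega
    · exact absurd (σ.trans (hx ▸ hxy) (hσ y 1 (by omega) le_rfl)) h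
    · exact absurd (σ.trans (hy ▸ σ.symm hxy) (hσ x 1 (by omega) le_rfl)) h
    · omega

theorem cr_Ph {v : M} (hv : v ∈ Sup (W 1)) : cr v + cr (Ph 1 v) = tot v := by
  classical
  refine du_lmap_ext (A := W 1) (f := cr + cr ∘ₗ Ph 1) (g := tot) (fun σ hσ => ?_) hv
  rw [LinearMap.add_apply, LinearMap.comp_apply, Ph_single, cr_single, cr_single, tot_single]
  by_cases h : σ 0 1
  · rw [if_pos h, if_neg (fun h' => (Phi_one hσ).1 h' h), add_zero]
  · rw [if_neg h, if_pos ((Phi_one hσ).2 h), zero_add]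

/-! ### supports -/

theorem du_DR_W {m l : ℕ} (hl : 1 ≤ l) (b : ℕ → ℝ) (p q : ℝ) {v : M} (hv : v ∈ Sup (W (m + l + 1))) :
    DR (2 * m + 1) b p q v ∈ Sup (W (m + l)) := by
  rw [DR_apply]
  exact De_Sup (by omega) (row_Sup _ _ _ (by omega) (row_Sup _ _ _ (by omega) hv))

theorem du_rows_W (m : ℕ) (b : ℕ → ℝ) (k : ℕ) (β : ℕ → ℝ) {v : M} (hv : v ∈ Sup (W (m + k + 1))) :
    rows (2 * m + 1) b β k v ∈ Sup (W (m + 1)) := by
  induction k generalizing β v with
  | zero => exact hv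
  | succ k ih =>
    rw [rows_succ']
    exact ih _ (du_DR_W (l := k + 1) (by omega) _ _ _ hv)

theorem du_caps_W (m : ℕ) {v : M} (hv : v ∈ Sup (W (m + 1))) : caps m v ∈ Sup (W 1) := by
  induction m generalizing v with
  | zero => exact hv
  | succ m ih =>
    rw [caps_succ]
    exact ih (De_Sup (by omega) hv)

theorem Lw_apply (m k : ℕ) (c β : ℕ → ℝ) : Lw m k c β =
    caps m (rows (2 * m + 1) c (fun r => β (r + 1)) k (De (2 * m + 3) (J (m + 1) (V m c) (V k β)))) := rfl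

theorem Lw_W (m k : ℕ) (c β : ℕ → ℝ) : Lw m k c β ∈ Sup (W 1) := by
  rw [Lw_apply]
  refine du_caps_W m (du_rows_W m c k _ (De_Sup (by omega) ?_))
  have h1 := du_J_Sup (m := m + 1) (A := W m) (B := W k) (C := W (m + 1 + 1 + k))
    (fun σ _ τ hτ => du_gl_W σ hτ) (V_Sup m c) (V_Sup k β)
  rwa [show m + k + 1 + 1 = m + 1 + 1 + k by ring]

/-- the vector of the dual corridor in the new frame -/
theorem Ph_Lw (m k : ℕ) (c β : ℕ → ℝ) :
    Ph 1 (Lw m k c β) = Lv k m (fun j => -β (2 * k - j)) (fun j => -c (2 * m - j)) := by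
  have hNC : De (2 * m + 3) (J (m + 1) (V m c) (V k β)) ∈ Sup NC :=
    De_NC _ (du_J_Sup (fun σ hσ τ hτ => du_gl_NC hσ hτ) (V_NC m c) (V_NC k β))
  rw [Lw_apply, Ph_caps m (du_rows_NC _ _ _ _ hNC), Ph_rows m c k (fun r => β (r + 1)) (rv k β) (fun j hj => by
      unfold rv
      congr 2
      omega) hNC, Ph_glue m k (V_Sup m c), du_main, Ka_V, Ka_V]
  rfl

/-- (S), second part: duality -/
theorem dual : StDual := fun m k c β => by
  rw [← Ph_Lw]
  exact cr_Ph (Lw_W m k c β)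

end LD
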