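import Pool.Agent.Helper34.LDual.KapV
import Pool.Agent.Helper78.LD.Push

/-!
# L-SHAPED CORRIDOR, part [D], duality: the change of frame (helper32)

`Phi n σ` : the dual state in the frame where the two legs are exchanged: strand `0` (inner corner) is fixed, the strand
`j ≥ 2` becomes the strand `2n+2-j`, the strand `1` (end of the lower leg) and the end of the right leg are exchanged.
`glue_dual` : the initial state of the dual corridor goes to the initial state of the corridor.
-/

namespace LD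
open IP Finset Real

set_option warn.classDefReducibility false

/-- the positions of the sites of the new frame -/
def ff (n i : ℕ) : ℕ := if i = 0 then 0 else (n - i) + 1

/-- the dual state in the new frame -/
def Phi (n : ℕ) (σ : St) : St := Setoid.comap (ff n) (sg σ)

theorem ff_zero (n : ℕ) : ff n 0 = 0 := rfl

theorem ff_pos (n : ℕ) {x : ℕ} (h : x ≠ 0) : ff n x = n - x + 1 := if_neg h

theorem Phi_apply (n : ℕ) (σ : St) (x y : ℕ) : Phi n σ x y ↔ sg σ (ff n x) (ff n y) := Iff.rfl

theorem Phi_act {n i : ℕ} (h2 : 2 ≤ i) (hi : i < 2 * n) {σ : St} (hσ : σ ∈ NC) :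
    Phi n (act i σ) = act (2 * n + 1 - i) (Phi n σ) := by
  obtain ⟨a, rfl | rfl⟩ := parity i
  · rw [act_even, show 2 * n + 1 - 2 * a = 2 * (n - a) + 1 by omega, act_odd]
    unfold Phi
    rw [sg_detach hσ, join_comap (n - a) (n - a + 1) (ff n)]
    have e1 : ff n (n - a) = a + 1 := by rw [ff_pos n (by omega)]; omega
    have e2 : ff n (n - a + 1) = a := by rw [ff_pos n (by omega)]; omega
    rw [e1, e2]
  · rw [act_odd, show 2 * n + 1 - (2 * a + 1) = 2 * (n - a) by omega, act_even]
    ext x y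
    rw [Phi_apply, sg_join, detach_apply, Phi_apply]
    have e : ∀ x, ff n x = a + 1 ↔ x = n - a := by
      intro x
      by_cases h0 : x = 0
      · rw [h0, ff_zero]; omega
      · rw [ff_pos n h0]; omega
    rw [ne_eq, ne_eq, e, e]
    constructor
    · rintro (h | ⟨h1, h2, h3⟩)
      · by_cases hxy : x = y
        · exact Or.inl hxy
        · right
          have h4 : x ≠ n - a ∧ y ≠ n - a := by
            unfold ff at h
            split_ifs at h <;> omega
          refine ⟨h4.1, h4.2, ?_⟩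
          rw [h]
      · exact Or.inr ⟨h1, h2, h3⟩
    · rintro (rfl | ⟨h1, h2, h3⟩)
      · exact Or.inl rfl
      · exact Or.inr ⟨h1, h2, h3⟩

theorem Phi_ins {n i : ℕ} (h2 : 2 ≤ i) (hi : i ≤ 2 * n + 1) (σ : St) :
    Phi (n + 1) (ins i σ) = ins (2 * n + 3 - i) (Phi n σ) := by
  obtain ⟨a, rfl | rfl⟩ := parity i
  · rw [bb_ins_even, show 2 * n + 3 - 2 * a = 2 * (n + 1 - a) + 1 by omega, bb_ins_odd]
    unfold Phi
    rw [sg_insS, comap_comap, comap_comap]
    apply comap_congr'
    intro x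
    by_cases h0 : x = 0
    · rw [h0, ff_zero]
      unfold coll
      rw [if_pos (by omega), if_pos (by omega), ff_zero]
    · rw [ff_pos (n + 1) h0]
      unfold coll
      by_cases h1 : x ≤ n + 1 - a
      · rw [if_pos h1, ff_pos n h0]
        by_cases h3 : n + 1 - x + 1 ≤ a
        · rw [if_pos h3]; omega
        · rw [if_neg h3]; omega
      · rw [if_neg h1, ff_pos n (by omega)]
        by_cases h3 : n + 1 - x + 1 ≤ a
        · rw [if_pos h3]; omega
        · rw [if_neg h3]; omega
  · rw [bb_ins_odd, show 2 * n + 3 - (2 * a + 1) = 2 * (n + 1 - a) by omega, bb_ins_even]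
    ext x y
    rw [Phi_apply, sg_comap_coll, bb_insS_iff, bb_insS_iff]
    have e : ∀ x, x ≠ n + 1 - a → unskip (a + 1) (ff (n + 1) x) = ff n (unskip (n + 1 - a) x) := by
      intro x hx
      unfold unskip ff
      split_ifs <;> omega
    have e' : ∀ x, ff (n + 1) x = a + 1 ↔ x = n + 1 - a := by
      intro x
      by_cases h0 : x = 0
      · rw [h0, ff_zero]; omega
      · rw [ff_pos _ h0]; omega
    rw [ne_eq, ne_eq, e', e']
    constructor
    · rintro (h | ⟨h1, h2, h3⟩)
      · by_cases hxy : x = y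
        · exact Or.inl hxy
        · right
          have h4 : x ≠ n + 1 - a ∧ y ≠ n + 1 - a := by
            unfold ff at h
            split_ifs at h <;> omega
          refine ⟨h4.1, h4.2, ?_⟩
          rw [Phi_apply, ← e x h4.1, ← e y h4.2, h]
      · right
        refine ⟨h1, h2, ?_⟩
        rw [Phi_apply, ← e x h1, ← e y h2]
        exact h3
    · rintro (rfl | ⟨h1, h2, h3⟩)
      · exact Or.inl rfl
      · right
        refine ⟨h1, h2, ?_⟩
        rw [e x h1, e y h2]
        exact h3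

theorem Phi_del {n i : ℕ} (h2 : 2 ≤ i) (hi : i ≤ 2 * n + 1) {σ : St} (hσ : σ ∈ NC) :
    Phi n (del i σ) = del (2 * n + 3 - i) (Phi (n + 1) σ) := by
  apply ins_injective (2 * n + 3 - i)
  rw [← Phi_ins h2 hi, ins_del, ins_del, Phi_act h2 (by omega) hσ]
  congr 1

/-! ### linear maps -/

/-- the dual vector in the new frame -/
noncomputable def Ph (n : ℕ) : M →ₗ[ℝ] M := Finsupp.lmapDomain ℝ ℝ (Phi n)

theorem Ph_single (n : ℕ) (σ : St) (x : ℝ) :
    Ph n (Finsupp.single σ x) = Finsupp.single (Phi n σ) x := by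
  unfold Ph
  rw [Finsupp.lmapDomain_apply, Finsupp.mapDomain_single]

theorem Ph_E {n i : ℕ} (h2 : 2 ≤ i) (hi : i < 2 * n) {v : M} (hv : v ∈ Sup NC) :
    Ph n (E i v) = E (2 * n + 1 - i) (Ph n v) := by
  refine lmap_ext_NC (f := Ph n ∘ₗ E i) (g := E (2 * n + 1 - i) ∘ₗ Ph n) (fun σ hσ => ?_) hv
  rw [LinearMap.comp_apply, LinearMap.comp_apply, Ph_single]
  unfold E
  rw [Finsupp.lmapDomain_apply, Finsupp.mapDomain_single, Finsupp.lmapDomain_apply,
    Finsupp.mapDomain_single, Ph_single, Phi_act h2 hi hσ]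

theorem Ph_Rt {n i : ℕ} (h2 : 2 ≤ i) (hi : i < 2 * n) (u : ℝ) {v : M} (hv : v ∈ Sup NC) :
    Ph n (Rt i u v) = Rt (2 * n + 1 - i) u (Ph n v) := by
  rw [Rt_apply, Rt_apply, map_add, map_smul, map_smul, Ph_E h2 hi hv]

theorem Ph_De {n i : ℕ} (h2 : 2 ≤ i) (hi : i ≤ 2 * n + 1) {v : M} (hv : v ∈ Sup NC) :
    Ph n (De i v) = De (2 * n + 3 - i) (Ph (n + 1) v) := by
  refine lmap_ext_NC (f := Ph n ∘ₗ De i) (g := De (2 * n + 3 - i) ∘ₗ Ph (n + 1))
    (fun σ hσ => ?_) hv
  rw [LinearMap.comp_apply, LinearMap.comp_apply, Ph_single]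
  unfold De
  rw [Finsupp.lmapDomain_apply, Finsupp.mapDomain_single, Finsupp.lmapDomain_apply,
    Finsupp.mapDomain_single, Ph_single, Phi_del h2 hi hσ]

/-- the mirrored row -/
theorem Ph_row {n : ℕ} (off : ℕ) (b : ℕ → ℝ) (k : ℕ) (h2 : 2 ≤ off) (h : off + k ≤ 2 * n) {v : M}
    (hv : v ∈ Sup NC) :
    Ph n (row off b k v) = up (2 * n + 2 - off - k) (fun j => -b (k - 1 - j)) k (Ph n v) := by
  induction k generalizing v with
  | zero => rfl
  | succ k ih =>
    rw [row_succ, ih (by omega) (Rt_NC _ _ hv), Ph_Rt (by omega) (by omega) _ hv]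
    have key : ∀ m, m ≤ k → ∀ w : M,
        up (2 * n + 2 - off - k) (fun j => -b (k - 1 - j)) m
          (Rt (2 * n + 2 - off - (k + 1)) (b k + π / 6) w) =
        up (2 * n + 2 - off - (k + 1)) (fun j => -b (k + 1 - 1 - j)) (m + 1) w := by
      intro m hm w
      induction m with
      | zero =>
        rw [up_zero, up_succ, up_zero]
        congr 1
        simp only [Nat.add_sub_cancel, Nat.sub_zero]
        ring_nf
      | succ m ihm =>
        rw [up_succ, ihm (by omega), up_succ _ _ (m + 1)]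
        have e1 : 2 * n + 2 - off - k + m = 2 * n + 2 - off - (k + 1) + (m + 1) := by omega
        have e2 : k - 1 - m = k + 1 - 1 - (m + 1) := by omega
        rw [e1]
        simp only [e2]
    have e : 2 * n + 1 - (off + k) = 2 * n + 2 - off - (k + 1) := by omega
    rw [e, key k le_rfl]

/-! ### the initial states -/

theorem du_skip_le {m x : ℕ} (h : x ≤ m + 1) : skip (m + 2) x = x := by
  unfold skip
  rw [if_pos (by omega)]

theorem du_skip_gt {m x : ℕ} (h : m + 1 < x) : skip (m + 2) x = x + 1 := by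
  unfold skip
  rw [if_neg (by omega)]

/-- the initial state of the dual corridor -/
theorem du_A_apply (m : ℕ) (σ τ : St) (x y : ℕ) : del (2 * m + 3) (gl (m + 1) σ τ) x y ↔
    (gl (m + 1) σ τ (skip (m + 2) x) (skip (m + 2) y) ∨
      (gl (m + 1) σ τ (skip (m + 2) x) (m + 1) ∧ gl (m + 1) σ τ (m + 2) (skip (m + 2) y)) ∨
      (gl (m + 1) σ τ (skip (m + 2) x) (m + 2) ∧ gl (m + 1) σ τ (m + 1) (skip (m + 2) y))) := by
  rw [show 2 * m + 3 = 2 * (m + 1) + 1 by ring, bb_del_odd, comap_apply, join_apply]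

theorem du_A_ll {m x y : ℕ} (σ τ : St) (hx : x ≤ m + 1) (hy : y ≤ m + 1) :
    del (2 * m + 3) (gl (m + 1) σ τ) x y ↔ σ (ix (m + 1) x) (ix (m + 1) y) := by
  rw [du_A_apply, du_skip_le hx, du_skip_le hy, gl_left σ τ hx hy]
  constructor
  · rintro (h | h | h)
    · exact h
    · exact absurd h.2 (gl_mixed' σ τ (by omega) hy)
    · exact absurd h.1 (gl_mixed σ τ hx (by omega))
  · exact Or.inl

theorem du_A_lr {m x y : ℕ} (σ τ : St) (hx : x ≤ m + 1) (hy : m + 1 < y) :
    del (2 * m + 3) (gl (m + 1) σ τ) x y ↔ σ (ix (m + 1) x) m ∧ τ 0 (y - (m + 1)) := by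
  rw [du_A_apply, du_skip_le hx, du_skip_gt hy, gl_left σ τ hx (le_refl (m + 1)),
    gl_right σ τ (by omega : m + 1 < m + 2) (by omega : m + 1 < y + 1), ix_succ,
    show m + 2 - (m + 1 + 1) = 0 by omega, show y + 1 - (m + 1 + 1) = y - (m + 1) by omega]
  constructor
  · rintro (h | h | h)
    · exact absurd h (gl_mixed σ τ hx (by omega))
    · exact h
    · exact absurd h.1 (gl_mixed σ τ hx (by omega))
  · exact fun h => Or.inr (Or.inl h)

theorem du_A_rr {m x y : ℕ} (σ τ : St) (hx : m + 1 < x) (hy : m + 1 < y) :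
    del (2 * m + 3) (gl (m + 1) σ τ) x y ↔ τ (x - (m + 1)) (y - (m + 1)) := by
  rw [du_A_apply, du_skip_gt hx, du_skip_gt hy, gl_right σ τ (by omega : m + 1 < x + 1) (by omega : m + 1 < y + 1),
    show x + 1 - (m + 1 + 1) = x - (m + 1) by omega, show y + 1 - (m + 1 + 1) = y - (m + 1) by omega]
  constructor
  · rintro (h | h | h)
    · exact h
    · exact absurd h.1 (gl_mixed' σ τ (by omega) (by omega))
    · exact absurd h.2 (gl_mixed σ τ (by omega) (by omega))
  · exact Or.inl

/-- connections of the dual corridor, right leg -/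
theorem du_A_tau {m : ℕ} (σ τ : St) {x y : ℕ} (h : del (2 * m + 3) (gl (m + 1) σ τ) x y) :
    τ (x - (m + 1)) (y - (m + 1)) := by
  rcases le_or_gt x (m + 1) with hx | hx <;> rcases le_or_gt y (m + 1) with hy | hy
  · rw [Nat.sub_eq_zero_of_le hx, Nat.sub_eq_zero_of_le hy]
  · rw [Nat.sub_eq_zero_of_le hx]
    exact ((du_A_lr σ τ hx hy).1 h).2
  · rw [Nat.sub_eq_zero_of_le hy]
    exact τ.symm ((du_A_lr σ τ hy hx).1 ((del (2 * m + 3) (gl (m + 1) σ τ)).symm h)).2
  · exact (du_A_rr σ τ hx hy).1 h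

theorem du_tau_A {m : ℕ} (σ τ : St) {u v : ℕ} (h : τ u v) :
    del (2 * m + 3) (gl (m + 1) σ τ) (m + 1 + u) (m + 1 + v) := by
  rcases Nat.eq_zero_or_pos u with hu | hu <;> rcases Nat.eq_zero_or_pos v with hv | hv
  · subst hu
    subst hv
    exact (del (2 * m + 3) (gl (m + 1) σ τ)).refl _
  · subst hu
    rw [Nat.add_zero, du_A_lr σ τ le_rfl (by omega), ix_succ]
    exact ⟨σ.refl _, by rwa [show m + 1 + v - (m + 1) = v by omega]⟩
  · subst hv
    apply (del (2 * m + 3) (gl (m + 1) σ τ)).symm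
    show del (2 * m + 3) (gl (m + 1) σ τ) (m + 1 + 0) (m + 1 + u)
    rw [Nat.add_zero, du_A_lr σ τ le_rfl (by omega), ix_succ]
    exact ⟨σ.refl _, by rw [show m + 1 + u - (m + 1) = u by omega]; exact τ.symm h⟩
  · rw [du_A_rr σ τ (by omega) (by omega), show m + 1 + u - (m + 1) = u by omega,
      show m + 1 + v - (m + 1) = v by omega]
    exact h

/-- connections of the dual corridor, lower leg -/
theorem du_A_sigma {m : ℕ} {σ : St} (hσ : σ ∈ W m) (τ : St) {x y : ℕ}
    (h : del (2 * m + 3) (gl (m + 1) σ τ) x y) :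
    σ (if x = 0 then m else min (x - 1) m) (if y = 0 then m else min (y - 1) m) := by
  have key : ∀ x, x ≤ m + 1 → σ (ix (m + 1) x) (if x = 0 then m else min (x - 1) m) := by
    intro x hx
    unfold ix
    split_ifs with h0
    · exact hσ _ _ (by omega) le_rfl
    · rw [min_eq_left (by omega)]
  have key2 : ∀ x, m + 1 < x → (if x = 0 then m else min (x - 1) m) = m := by
    intro x hx
    rw [if_neg (by omega), min_eq_right (by omega)]
  rcases le_or_gt x (m + 1) with hx | hx <;> rcases le_or_gt y (m + 1) with hy | hy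
  · exact σ.trans (σ.symm (key x hx)) (σ.trans ((du_A_ll σ τ hx hy).1 h) (key y hy))
  · rw [key2 y hy]
    exact σ.trans (σ.symm (key x hx)) ((du_A_lr σ τ hx hy).1 h).1
  · rw [key2 x hx]
    exact σ.symm (σ.trans (σ.symm (key y hy))
      ((du_A_lr σ τ hy hx).1 ((del (2 * m + 3) (gl (m + 1) σ τ)).symm h)).1)
  · rw [key2 x hx, key2 y hy]

theorem du_sigma_A {m : ℕ} {σ : St} (hσ : σ ∈ W m) (τ : St) {u v : ℕ} (h : σ u v) :
    del (2 * m + 3) (gl (m + 1) σ τ) (min u m + 1) (min v m + 1) := by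
  rw [du_A_ll σ τ (by omega) (by omega), ix_succ, ix_succ]
  have key : ∀ u, σ (min u m) u := by
    intro u
    rcases le_or_gt u m with hu | hu
    · rw [min_eq_left hu]
    · rw [min_eq_right hu.le]
      exact hσ _ _ le_rfl hu.le
  exact σ.trans (key u) (σ.trans h (σ.symm (key v)))

theorem du_A_wall {m : ℕ} {σ : St} (hσ : σ ∈ W m) (τ : St) :
    del (2 * m + 3) (gl (m + 1) σ τ) 0 (m + 1) := by
  rw [du_A_ll σ τ (by omega) (by omega), ix_succ, ix_zero]
  exact hσ _ _ (by omega) le_rfl

/-- the initial state in the new frame -/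
theorem Phi_glue (m k : ℕ) {σ : St} (hσ : σ ∈ W m) (τ : St) :
    gl k (kap k τ) (kap m σ) = Phi (m + k + 1) (del (2 * m + 3) (gl (m + 1) σ τ)) := by
  set A := del (2 * m + 3) (gl (m + 1) σ τ) with hA
  apply gl_ext
  · intro x y hx hy
    rw [kap_apply, Phi_apply]
    -- positions in the right leg
    have p1 : ∀ x, x ≤ k → ∀ z, (z < ff (m + k + 1) x ↔ z - (m + 1) < k - ix k x) := by
      intro x hx z
      unfold ff ix
      split_ifs <;> omega
    constructor
    · intro h u v huv
      have h1 := h _ _ (du_A_tau σ τ huv)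
      rw [p1 x hx, p1 y hy, p1 x hx, p1 y hy]
      exact h1
    · intro h u v huv
      have h1 := h _ _ (du_tau_A (m := m) σ τ huv)
      rw [p1 x hx, p1 y hy, p1 x hx, p1 y hy, show m + 1 + u - (m + 1) = u by omega,
        show m + 1 + v - (m + 1) = v by omega] at h1
      exact h1
  · intro x y hx hy
    rw [kap_apply, Phi_apply]
    have p1 : ∀ x, k < x → ff (m + k + 1) x = m - (x - (k + 1)) + 1 := by
      intro x hx
      unfold ff
      split_ifs <;> omega
    rw [p1 x hx, p1 y hy]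
    generalize hs : m - (x - (k + 1)) = s1
    generalize ht : m - (y - (k + 1)) = t1
    have hs' : s1 ≤ m := by omega
    have ht' : t1 ≤ m := by omega
    constructor
    · intro h u v huv
      have h1 := h _ _ (du_A_sigma hσ τ huv)
      have e : ∀ z, ((z < s1 + 1 ↔ z < t1 + 1) ↔
          ((if z = 0 then m else min (z - 1) m) < s1 ↔ (if z = 0 then m else min (z - 1) m) < t1)) := by
        intro z
        split_ifs <;> omega
      rw [e, e]
      exact h1
    · intro h u v huv
      have h1 := h _ _ (du_sigma_A hσ τ huv)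
      have e : ∀ z, ((min z m + 1 < s1 + 1 ↔ min z m + 1 < t1 + 1) ↔ (z < s1 ↔ z < t1)) := by
        intro z
        omega
      rw [e, e] at h1
      exact h1
  · intro x y hx hy
    rw [Phi_apply]
    intro h
    have h1 := h 0 (m + 1) (du_A_wall hσ τ)
    unfold ff at h1
    split_ifs at h1 <;> omega

end LD
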